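import Pool.Agent.Lib.MP_6756f0_al.Example

namespace Pool.Agent.Variants.MP_6756f0_al.GolodMassey

open MvPolynomial Pool.Agent.Lib.MP_6756f0_al Pool.Agent.Lib.MP_6756f0_al.Defs

attribute [local instance] MvPolynomial.gradedAlgebra in
lemma comp_mem {k : Type} [Field k] {I : Ideal (MvPolynomial (Fin 4) k)}
    (h : I.IsHomogeneous (homogeneousSubmodule (Fin 4) k)) :
    ∀ f ∈ I, ∀ d, homogeneousComponent d f ∈ I := by
  intro f hf d
  rw [← MvPolynomial.decomposition.decompose'_apply]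
  exact h d hf

attribute [local instance] MvPolynomial.gradedAlgebra in
/-- In `k[x₀,x₁,x₂,x₃]` with irrelevant ideal `m`, the homogeneous ideals
`I₁ = m (x₀⁴, x₁⁴, x₂⁴, x₃⁴) + m¹²` and `I₂ = m²` are Golod and their product is not. -/
theorem result (k : Type) [Field k] :
    ∃ I₁ I₂ : Ideal (MvPolynomial (Fin 4) k),
      I₁ = irr k 4 * fourth k 4 ⊔ irr k 4 ^ 12 ∧ I₂ = irr k 4 ^ 2 ∧
      IsAdmissible I₁ ∧ IsAdmissible I₂ ∧ IsGolod I₁ ∧ IsGolod I₂ ∧ ¬ IsGolod (I₁ * I₂) := by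
  have h1 : mm k * CC k ⊔ mm k ^ 12 ≤ mm k ^ 2 :=
    sup_le (by rw [pow_two]; exact Ideal.mul_mono_right CC_le')
      (Ideal.pow_le_pow_right (by norm_num))
  have h2 : mm k ^ 2 ≠ ⊤ := by
    rw [Ideal.ne_top_iff_one, ← C_1, C_mem_pow_idealOfVars_iff]
    simp
  exact ⟨_, _, rfl, rfl, ⟨ne_top_of_le_ne_top h2 h1,
    comp_mem ((homog_mm.mul homog_CC).sup (homog_mm_pow 12)), h1⟩,
    ⟨h2, comp_mem (homog_mm_pow 2), le_rfl⟩, golod_I1, golod_I2, not_golod_J⟩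

end Pool.Agent.Variants.MP_6756f0_al.GolodMassey
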